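import Pool.Agent.helper55.GL.Spec

set_option autoImplicit false

namespace Pool.Agent.GL

open SimpleGraph

theorem CLS_symm {V : Type} {H : SimpleGraph V} {A B : Set V} (h : Sep H A B) : Sep H B A where
  un := by rw [Set.union_comm]; exact h.un
  no := fun a ha haA b hb hbB hab => h.no b hb hbB a ha haA hab.symm
  cl := fun a ha b hb hab => h.cl a ⟨ha.2, ha.1⟩ b ⟨hb.2, hb.1⟩ hab

theorem CLS_mem {V : Type} {H : SimpleGraph V} {A B : Set V} (h : Sep H A B) (x : V)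
    (hx : x ∉ B) : x ∈ A := by
  have h1 : x ∈ A ∪ B := by rw [h.un]; trivial
  exact h1.resolve_right hx

/-- An edge out of `A \ B` ends in `A`. -/
theorem CLS_out {V : Type} {H : SimpleGraph V} {A B : Set V} (h : Sep H A B) {a b : V}
    (ha : a ∈ A) (haB : a ∉ B) (hab : H.Adj a b) : b ∈ A := by
  by_contra hb
  exact h.no a ha haB b (CLS_mem (CLS_symm h) b hb) hb hab

theorem CLS_side {V : Type} {H : SimpleGraph V} {c : V → Bool} (hc : Pr H c) (hH : H.Connected)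
    {A B : Set V} (h : Sep H A B) (hA : A ≠ Set.univ) (hB : B ≠ Set.univ) :
    (∀ a ∈ A, ∃ b ∈ A, H.Adj a b) ∧ ∃ a ∈ A, ∃ b ∈ A, H.Adj a b ∧ A ∩ B ⊆ {a, b} := by
  obtain ⟨x, hx⟩ : ∃ x, x ∉ B := by
    by_contra hcon
    push Not at hcon
    exact hB (Set.eq_univ_of_forall hcon)
  obtain ⟨y, hy⟩ : ∃ y, y ∉ A := by
    by_contra hcon
    push Not at hcon
    exact hA (Set.eq_univ_of_forall hcon)
  have hxA : x ∈ A := CLS_mem h x hx
  -- the boundary of `A \ B`
  have hbd : ∀ z : V, z ∉ A \ B → ∃ u w, u ∈ A ∧ u ∉ B ∧ w ∈ A ∩ B ∧ H.Adj u w := by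
    intro z hz
    obtain ⟨p⟩ := hH.preconnected x z
    obtain ⟨d, -, hd1, hd2⟩ := p.exists_boundary_dart (A \ B) ⟨hxA, hx⟩ hz
    have hadj : H.Adj d.fst d.snd := d.adj
    have hw : d.snd ∈ A := CLS_out h hd1.1 hd1.2 hadj
    have hwB : d.snd ∈ B := by
      by_contra hcon
      exact hd2 ⟨hw, hcon⟩
    exact ⟨d.fst, d.snd, hd1.1, hd1.2, ⟨hw, hwB⟩, hadj⟩
  have hne : ∀ a b : V, a ≠ b → ∃ b', H.Adj a b' := by
    intro a b hab
    obtain ⟨p⟩ := hH.preconnected a b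
    cases p with
    | nil => exact absurd rfl hab
    | cons h' _ => exact ⟨_, h'⟩
  have hnb : ∀ a ∈ A, ∃ b ∈ A, H.Adj a b := by
    intro a ha
    by_cases haB : a ∈ B
    · by_cases hex : ∃ a' ∈ A ∩ B, a' ≠ a
      · obtain ⟨a', ha', hne'⟩ := hex
        exact ⟨a', ha'.1, h.cl a ⟨ha, haB⟩ a' ha' (Ne.symm hne')⟩
      · push Not at hex
        obtain ⟨u, w, hu, -, hw, huw⟩ := hbd a (fun hcon => hcon.2 haB)
        have h1 : w = a := hex w hw
        subst h1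
        exact ⟨u, hu, huw.symm⟩
    · have h1 : a ≠ y := by
        intro h2
        exact hy (h2 ▸ ha)
      obtain ⟨b, hb⟩ := hne a y h1
      exact ⟨b, CLS_out h ha haB hb, hb⟩
  refine ⟨hnb, ?_⟩
  obtain ⟨u, w, hu, -, hw, huw⟩ := hbd y (fun hcon => hy hcon.1)
  by_cases hex : ∃ a' ∈ A ∩ B, a' ≠ w
  · obtain ⟨a', ha', hne'⟩ := hex
    have hadj : H.Adj w a' := h.cl w hw a' ha' (Ne.symm hne')
    refine ⟨w, hw.1, a', ha'.1, hadj, ?_⟩
    intro z hz
    by_contra hcon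
    simp only [Set.mem_insert_iff, Set.mem_singleton_iff, not_or] at hcon
    have h1 := hc _ _ hadj
    have h2 := hc _ _ (h.cl z hz w hw hcon.1)
    have h3 := hc _ _ (h.cl z hz a' ha' hcon.2)
    revert h1 h2 h3
    cases c w <;> cases c a' <;> cases c z <;> simp
  · push Not at hex
    refine ⟨w, hw.1, u, hu, huw.symm, ?_⟩
    intro z hz
    rw [hex z hz]
    exact Set.mem_insert _ _

theorem CLS_univ (hEMB : EMB_stmt) {V : Type} {H : SimpleGraph V} {c : V → Bool}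
    (hq : QG (H.induce Set.univ) (fun a => c a)) : QG H c := by
  obtain ⟨C, N, hCN⟩ := hq
  refine ⟨C, N, fun n hn => ?_⟩
  have h1 : exs n H c Set.univ ≤ exs n (H.induce Set.univ) (fun a => c a) Set.univ :=
    hEMB V (Set.univ : Set V) H (H.induce Set.univ) c (fun a => c a) Set.univ Set.univ
      (fun a => ⟨a, trivial⟩) (fun _ _ => trivial) (fun a _ b _ hab => congrArg Subtype.val hab)
      (fun a _ b _ hab => hab) (fun a _ => rfl) n
  have h2 : ex n (H.induce Set.univ) ≤ ex n H :=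
    IsContained.extremalNumber_le ⟨(Embedding.induce (G := H) (Set.univ : Set V)).toCopy⟩
  exact h1.trans ((hCN n hn).trans (Nat.mul_le_mul_left C h2))

theorem CLS (hQSM : QSM_stmt) (hEMB : EMB_stmt) : CLS_stmt := by
  intro V _ H c hc hH A B hAB hqA hqB
  by_cases hA : A = Set.univ
  · subst hA
    exact CLS_univ hEMB hqA
  by_cases hB : B = Set.univ
  · subst hB
    exact CLS_univ hEMB hqB
  obtain ⟨h1, h2⟩ := CLS_side hc hH hAB hA hB
  obtain ⟨h3, a, ha, b, hb, hab, hsub⟩ := CLS_side hc hH (CLS_symm hAB) hB hA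
  refine hQSM V H c hc ?_ A B hA hAB.un hAB.no h1 h2 ⟨a, ha, b, hb, hab, ?_⟩ hqA hqB
  · intro x
    have hx : x ∈ A ∪ B := by rw [hAB.un]; trivial
    rcases hx with hx | hx
    · obtain ⟨y, -, hy⟩ := h1 x hx
      exact ⟨y, hy⟩
    · obtain ⟨y, -, hy⟩ := h3 x hx
      exact ⟨y, hy⟩
  · rw [Set.inter_comm]
    exact hsub

end Pool.Agent.GL
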